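import Pool.Agent.Helper76.TX.StNv2

/-! # Project TU, module NVC2: transport to level `(0, 2r+2)` -/

set_option autoImplicit false

namespace Pool.Agent.Helper86.TX

open Pool.Agent.Helper76.TX Pool.Agent.Helper14.CV

/-- The potential `G(2^r p, q)`. -/
private def Go {R : Type} (r : ℕ) (G : ℤ → ℤ → R) : ℤ → ℤ → R := fun p q => G (2 ^ r * p) q

private theorem two_or (r : ℕ) {p q : ℤ} (h : p ≠ 0 ∨ q ≠ 0) : (2 ^ r * p ≠ 0 ∨ q ≠ 0) := by
  rcases h with h0 | h0
  · exact Or.inl (mul_ne_zero (by positivity) h0)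
  · exact Or.inr h0

private theorem sym_Go {R : Type} [AddCommGroup R] {r s : ℕ} {G : ℤ → ℤ → R} (h : Sym r s G) :
    Sym 0 (r + s) (Go r G) := by
  refine ⟨?_, ?_⟩
  · intro k p q hk hpq
    have e := h.1 k (2 ^ r * p) q hk (two_or r hpq)
    have e1 : 2 ^ r * (k * p) = k * (2 ^ r * p) := by ring
    simp only [Go]
    rw [e1, e]
  · intro a b c d hdet _ hc
    obtain ⟨c', hc'⟩ := hc
    obtain ⟨k, hk⟩ := h.2 a (2 ^ r * b) (2 ^ s * c') d
      (by rw [← hdet, hc', pow_add]; ring) (Dvd.intro _ rfl) (Dvd.intro _ rfl)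
    refine ⟨k, ?_⟩
    intro p q hpq
    have e := hk (2 ^ r * p) q (two_or r hpq)
    simp only [act, Go] at e ⊢
    have e1 : 2 ^ r * (a * p + b * q) = a * (2 ^ r * p) + 2 ^ r * b * q := by ring
    have e2 : c * p + d * q = 2 ^ s * c' * (2 ^ r * p) + d * q := by
      rw [hc', pow_add]
      ring
    rw [e1, e2, e]

theorem hNvc2 : StNvc2 := by
  intro hB K _ D r c hD hr hc
  obtain ⟨G, hG, hne⟩ := hB K _ D r c hD hr hc
  refine ⟨Go (r + 1) G, ?_, ?_⟩
  · have h := sym_Go hG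
    have e : r + 1 + (r + 1) = 2 * r + 2 := by ring
    rw [e] at h
    exact h
  · have e := hG.1 (2 ^ (r + 1)) 1 0 (by positivity) (Or.inl one_ne_zero)
    rw [mul_zero] at e
    simp only [Go]
    rw [e]
    exact hne

end Pool.Agent.Helper86.TX
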