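import Pool.Agent.Helper76.TX.StW

/-! # Project TU, module NWS: the new symbol of a newform, all signs -/

set_option autoImplicit false

open UpperHalfPlane CongruenceSubgroup
open scoped MatrixGroups

namespace Pool.Agent.Helper86.TX

open Pool.Agent.Helper76.TX Pool.Agent.Helper14.CV Pool.Agent.Helper14.TT

private theorem sg_smul {w : ℤ} (hw : Sg w) (G : ℤ → ℤ → ℂ) : w • w • G = G := by
  rcases hw with rfl | rfl
  · simp
  · simp

private theorem det_star : (-1 : ℤ) * 1 - 0 * 0 ≠ 0 := by norm_num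

private theorem det_t : (2 : ℤ) * 2 - 1 * 0 ≠ 0 := by norm_num

private theorem det_W (n : ℕ) : (0 : ℤ) * 0 - (-1) * 2 ^ n ≠ 0 := by
  have : (2 : ℤ) ^ n ≠ 0 := by positivity
  simpa using this

theorem hNws : StNws := by
  intro hP1 hP2 hP5 hCom hNrm hA8 hN4 hP4 n f G w ε hn hw hε hf hR hG
  have hSym : Sym 0 n G := hP2 n f G hG
  have hW : EqC (act 0 (-1) (2 ^ n) 0 G) (-(w • G)) :=
    hP4 w n f G hw hG (hA8 w (2 ^ n) inferInstance f hw hR)
  have hT : EqC (act 2 1 0 2 G) (-G) :=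
    hP5 (2 ^ n) inferInstance f G hG (hN4 w n f hw (by omega) hf hR)
  obtain ⟨-, -, hSS, hKS⟩ := hNrm n G (by omega) hSym
  obtain ⟨-, -, -, cc, -, ctW, -, ctK, csK, cWK⟩ := hCom n G hn hSym
  obtain ⟨-, -, cWWs, -⟩ := hCom n _ hn hSS
  -- the relation for the lower unipotent matrix
  have hS : EqC (act 1 0 (2 ^ (n - 1)) 1 G) (-G) := by
    have e1 : EqC (act 2 1 0 2 (act 0 (-1) (2 ^ n) 0 G)) (w • G) := by
      have a1 : EqC (act 2 1 0 2 (act 0 (-1) (2 ^ n) 0 G)) (act 2 1 0 2 (-(w • G))) :=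
        hW.act det_t
      have a2 : act 2 1 0 2 (-(w • G)) = -(w • act 2 1 0 2 G) := rfl
      have a3 : EqC (-(w • act 2 1 0 2 G)) (-(w • (-G))) := (hT.smul w).neg
      rw [a2] at a1
      rw [smul_neg, neg_neg] at a3
      exact a1.trans a3
    have e2 : EqC (act 0 (-1) (2 ^ n) 0 (act 1 0 (2 ^ (n - 1)) 1 G)) (w • G) := ctW.symm.trans e1
    have e3 := e2.act (det_W n)
    have e4 : act 0 (-1) (2 ^ n) 0 (w • G) = w • act 0 (-1) (2 ^ n) 0 G := rfl
    have e5 : EqC (w • act 0 (-1) (2 ^ n) 0 G) (w • (-(w • G))) := hW.smul w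
    rw [smul_neg, sg_smul hw] at e5
    rw [e4] at e3
    exact cWWs.symm.trans (e3.trans e5)
  set K : ℤ → ℤ → ℂ := act (-1) 0 0 1 G with hK
  have tK : EqC (act 2 1 0 2 K) (-K) := ctK.trans (hT.act det_star)
  have sK : EqC (act 1 0 (2 ^ (n - 1)) 1 K) (-K) := csK.trans (hS.act det_star)
  have wK : EqC (act 0 (-1) (2 ^ n) 0 K) (-(w • K)) := cWK.trans (hW.act det_star)
  refine ⟨hSym.add (hKS.smul ε), ?_, ?_, ?_, ?_⟩
  · have h := hT.add (tK.smul ε)
    rw [smul_neg, ← neg_add] at h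
    exact h
  · have h := hS.add (sK.smul ε)
    rw [smul_neg, ← neg_add] at h
    exact h
  · have h := hW.add (wK.smul ε)
    rw [smul_neg, ← neg_add, smul_comm ε w, ← smul_add] at h
    exact h
  · have h : EqC (K + ε • act (-1) 0 0 1 K) (K + ε • G) := (EqC.refl K).add (cc.smul ε)
    have e : ε • (G + ε • K) = K + ε • G := by
      rw [smul_add, sg_smul hε, add_comm]
    rw [e]
    exact h

end Pool.Agent.Helper86.TX
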